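import Pool.Agent.Helper17.SO.Stmts

/-! Module BRC: the Bruck-Ryser theorem at a prime dividing the order exactly once. -/

set_option autoImplicit false

namespace Pool.Agent.Helper17.SO

open Matrix

theorem brc_ext {K ι : Type} [Field K] [Fintype ι] (c d : ℕ) (hcard : Fintype.card ι = c + d)
    (w : Fin c → ι → K) (hw : LinearIndependent K w) :
    ∃ P : Fin c ⊕ Fin d → ι → K, (∀ j, P (Sum.inl j) = w j) ∧ LinearIndependent K P := by
  obtain ⟨T, hT⟩ := Submodule.exists_isCompl (Submodule.span K (Set.range w))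
  have h1 : Module.finrank K (Submodule.span K (Set.range w)) = c := by
    rw [finrank_span_eq_card hw]; simp
  have h2 := Submodule.finrank_add_eq_of_isCompl hT
  rw [h1, Module.finrank_fintype_fun_eq_card, hcard] at h2
  have h3 : Module.finrank K T = d := by omega
  refine ⟨Sum.elim w (fun j => ((Module.finBasisOfFinrankEq K T h3) j : ι → K)),
    fun j => rfl, ?_⟩
  refine LinearIndependent.sum_type hw ?_ ?_
  · exact (Module.finBasisOfFinrankEq K T h3).linearIndependent.map' T.subtype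
      (Submodule.ker_subtype T)
  · refine hT.disjoint.mono_right ?_
    rw [Submodule.span_le]
    rintro _ ⟨j, rfl⟩
    exact ((Module.finBasisOfFinrankEq K T h3) j).2

theorem brc_det {K ι κ : Type} [Field K] [Fintype ι] [DecidableEq ι]
    (P : κ → ι → K) (hP : LinearIndependent K P) (e : κ ≃ ι) :
    (Matrix.of (fun i j => P (e.symm i) j)).det ≠ 0 := by
  have h1 : LinearIndependent K (Matrix.of (fun i j => P (e.symm i) j)).row :=
    hP.comp e.symm e.symm.injective
  rw [Matrix.linearIndependent_rows_iff_isUnit, Matrix.isUnit_iff_isUnit_det] at h1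
  exact h1.ne_zero

theorem brc_rank (p : ℕ) [hp : Fact p.Prime] {ι : Type} [Fintype ι] [DecidableEq ι]
    (E : Matrix ι ι ℤ) (c : ℕ) (w : Fin c → ι → ZMod p) (hw : LinearIndependent (ZMod p) w)
    (hker : ∀ j, (w j) ᵥ* (E.map (Int.castRingHom (ZMod p))) = 0) :
    (p : ℤ) ^ c ∣ E.det := by
  have hc : c ≤ Fintype.card ι := by
    have := hw.fintype_card_le_finrank
    rw [Module.finrank_fintype_fun_eq_card] at this
    simpa using this
  obtain ⟨d, hd⟩ := Nat.exists_eq_add_of_le hc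
  obtain ⟨P, hPw, hP⟩ := brc_ext c d hd w hw
  have hcd : Fintype.card (Fin c ⊕ Fin d) = Fintype.card ι := by
    rw [hd]; simp
  obtain ⟨e⟩ : Nonempty (Fin c ⊕ Fin d ≃ ι) := ⟨Fintype.equivOfCardEq hcd⟩
  have hdet := brc_det P hP e
  obtain ⟨U, hU⟩ : ∃ U : Matrix ι ι ℤ, U = Matrix.of (fun i j => ((P (e.symm i) j).val : ℤ)) :=
    ⟨_, rfl⟩
  have hUm : U.map (Int.castRingHom (ZMod p)) = Matrix.of (fun i j => P (e.symm i) j) := by
    ext i j
    simp [hU]
  have hUdet : ¬ (p : ℤ) ∣ U.det := by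
    intro hdvd
    apply hdet
    rw [← hUm, ← RingHom.mapMatrix_apply, ← RingHom.map_det]
    simpa using (ZMod.intCast_zmod_eq_zero_iff_dvd _ p).2 hdvd
  obtain ⟨D, hD⟩ : ∃ D : Fin c ⊕ Fin d → ℤ, D = Sum.elim (fun _ => (p : ℤ)) (fun _ => 1) :=
    ⟨_, rfl⟩
  have hdiv : ∀ i l, D (e.symm i) ∣ (U * E) i l := by
    intro i l
    rcases hk : e.symm i with j | j
    · rw [hD]
      show (p : ℤ) ∣ _
      rw [← ZMod.intCast_zmod_eq_zero_iff_dvd]
      have h1 := congrFun (hker j) l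
      have h2 : ((U * E) i l : ZMod p) =
          ((U.map (Int.castRingHom (ZMod p))) * (E.map (Int.castRingHom (ZMod p)))) i l := by
        rw [← Matrix.map_mul]
        simp
      refine Eq.trans ?_ h1
      rw [h2, hUm, ← hPw j]
      simp only [Matrix.mul_apply, Matrix.vecMul, dotProduct, Matrix.of_apply, hk]
    · rw [hD]
      exact one_dvd _
  have hfac : U * E = Matrix.diagonal (fun i => D (e.symm i)) *
      Matrix.of (fun i l => (U * E) i l / D (e.symm i)) := by
    ext i l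
    rw [Matrix.diagonal_mul, Matrix.of_apply, Int.mul_ediv_cancel' (hdiv i l)]
  have hprod : ∏ i, D (e.symm i) = (p : ℤ) ^ c := by
    rw [Equiv.prod_comp e.symm D, hD]
    simp
  have h3 : U.det * E.det = (p : ℤ) ^ c *
      (Matrix.of (fun i l => (U * E) i l / D (e.symm i))).det := by
    rw [← Matrix.det_mul]
    conv_lhs => rw [hfac]
    rw [Matrix.det_mul, Matrix.det_diagonal, hprod]
  have h4 : IsCoprime ((p : ℤ) ^ c) U.det := by
    refine IsCoprime.pow_left ?_
    exact (Nat.prime_iff_prime_int.1 hp.out).coprime_iff_not_dvd.2 hUdet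
  exact h4.dvd_of_dvd_mul_left ⟨_, h3⟩

theorem brc_blk {K : Type} [Field K] (h : ℕ) (X Y : Matrix (Fin h) (Fin h) K) :
    (Matrix.fromBlocks 0 X X.transpose Y).det = (-1) ^ h * X.det ^ 2 := by
  have h1 : Matrix.fromBlocks 0 X X.transpose Y *
      Matrix.fromBlocks (0 : Matrix (Fin h) (Fin h) K) (1 : Matrix (Fin h) (Fin h) K)
        (1 : Matrix (Fin h) (Fin h) K) (0 : Matrix (Fin h) (Fin h) K) =
      Matrix.fromBlocks X 0 Y X.transpose := by
    rw [Matrix.fromBlocks_multiply]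
    simp
  have h2 : Matrix.fromBlocks (0 : Matrix (Fin h) (Fin h) K) (1 : Matrix (Fin h) (Fin h) K)
        (1 : Matrix (Fin h) (Fin h) K) (0 : Matrix (Fin h) (Fin h) K) *
      Matrix.fromBlocks (1 : Matrix (Fin h) (Fin h) K) (1 : Matrix (Fin h) (Fin h) K)
        (0 : Matrix (Fin h) (Fin h) K) (1 : Matrix (Fin h) (Fin h) K) =
      Matrix.fromBlocks (0 : Matrix (Fin h) (Fin h) K) (1 : Matrix (Fin h) (Fin h) K)
        (1 : Matrix (Fin h) (Fin h) K) (1 : Matrix (Fin h) (Fin h) K) := by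
    rw [Matrix.fromBlocks_multiply]
    simp
  have h3 : (Matrix.fromBlocks (0 : Matrix (Fin h) (Fin h) K) (1 : Matrix (Fin h) (Fin h) K)
        (1 : Matrix (Fin h) (Fin h) K) (0 : Matrix (Fin h) (Fin h) K)).det = (-1) ^ h := by
    have := congrArg Matrix.det h2
    rw [Matrix.det_mul, Matrix.det_fromBlocks_zero₂₁, Matrix.det_fromBlocks_one₂₂] at this
    simpa [Matrix.det_neg] using this
  have h4 := congrArg Matrix.det h1
  rw [Matrix.det_mul, h3, Matrix.det_fromBlocks_zero₁₂, Matrix.det_transpose] at h4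
  have h5 : ((-1 : K) ^ h) * (-1) ^ h = 1 := by
    rw [← mul_pow]; simp
  calc (Matrix.fromBlocks 0 X X.transpose Y).det
      = (Matrix.fromBlocks 0 X X.transpose Y).det * ((-1) ^ h * (-1) ^ h) := by
        rw [h5, mul_one]
    _ = (-1) ^ h * X.det ^ 2 := by rw [← mul_assoc, h4]; ring

theorem brc_iso {K ι : Type} [Field K] [Fintype ι] [DecidableEq ι] (h : ℕ)
    (hcard : Fintype.card ι = h + h) (F : Matrix ι ι K) (hF : F.transpose = F)
    (w : Fin h → ι → K) (hw : LinearIndependent K w)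
    (hiso : ∀ i j, (w i) ⬝ᵥ (F *ᵥ (w j)) = 0) :
    ∃ x y : K, x ≠ 0 ∧ y ^ 2 = (-1) ^ h * F.det * x ^ 2 := by
  obtain ⟨P, hPw, hP⟩ := brc_ext h h hcard w hw
  have hcd : Fintype.card (Fin h ⊕ Fin h) = Fintype.card ι := by
    rw [hcard]; simp
  obtain ⟨e⟩ : Nonempty (Fin h ⊕ Fin h ≃ ι) := ⟨Fintype.equivOfCardEq hcd⟩
  have hdet := brc_det P hP e
  obtain ⟨Q, hQ⟩ : ∃ Q : Matrix ι ι K, Q = Matrix.of (fun i j => P (e.symm i) j) := ⟨_, rfl⟩
  rw [← hQ] at hdet
  obtain ⟨M, hM⟩ : ∃ M : Matrix (Fin h ⊕ Fin h) (Fin h ⊕ Fin h) K,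
      M = (Q * F * Q.transpose).submatrix e e := ⟨_, rfl⟩
  have hMs : M.transpose = M := by
    rw [hM, Matrix.transpose_submatrix, Matrix.transpose_mul, Matrix.transpose_mul,
      Matrix.transpose_transpose, hF, Matrix.mul_assoc]
  have hMd : M.det = Q.det ^ 2 * F.det := by
    rw [hM, Matrix.det_submatrix_equiv_self, Matrix.det_mul, Matrix.det_mul,
      Matrix.det_transpose]
    ring
  have h11 : M.toBlocks₁₁ = 0 := by
    ext i j
    have h1 : M (Sum.inl i) (Sum.inl j) = (w i) ⬝ᵥ (F *ᵥ (w j)) := by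
      rw [hM, Matrix.submatrix_apply, Matrix.mul_assoc, Matrix.mul_apply', ← hPw i, ← hPw j]
      have e1 : Q (e (Sum.inl i)) = P (Sum.inl i) := by
        funext l
        simp [hQ]
      have e2 : (fun l => (F * Q.transpose) l (e (Sum.inl j))) = F *ᵥ (P (Sum.inl j)) := by
        funext l
        simp [hQ, Matrix.mul_apply, Matrix.mulVec, dotProduct]
      rw [e1, e2]
    show M (Sum.inl i) (Sum.inl j) = 0
    rw [h1, hiso i j]
  have h21 : M.toBlocks₂₁ = M.toBlocks₁₂.transpose := by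
    ext i j
    show M (Sum.inr i) (Sum.inl j) = M (Sum.inl j) (Sum.inr i)
    conv_lhs => rw [← hMs]
    rfl
  have hblk : M = Matrix.fromBlocks 0 M.toBlocks₁₂ M.toBlocks₁₂.transpose M.toBlocks₂₂ := by
    conv_lhs => rw [← Matrix.fromBlocks_toBlocks M]
    rw [h11, h21]
  have h5 := congrArg Matrix.det hblk
  rw [brc_blk, hMd] at h5
  refine ⟨Q.det, M.toBlocks₁₂.det, hdet, ?_⟩
  have h6 : ((-1 : K) ^ h) * (-1) ^ h = 1 := by
    rw [← mul_pow]; simp
  calc M.toBlocks₁₂.det ^ 2 = ((-1 : K) ^ h * (-1) ^ h) * M.toBlocks₁₂.det ^ 2 := by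
        rw [h6, one_mul]
    _ = (-1) ^ h * (Q.det ^ 2 * F.det) := by rw [h5]; ring
    _ = _ := by ring

theorem st_BRC : ST_BRC := by
  intro v k n lam p A hn hk hv hkk hAA hrow hcol hp hp2 hpl hnp
  have hpf : Fact p.Prime := ⟨hp⟩
  obtain ⟨m, hm⟩ := hv
  -- the extended matrix
  obtain ⟨E, hE⟩ : ∃ E : Matrix (Fin v ⊕ Unit) (Fin v ⊕ Unit) ℤ,
      E = Matrix.fromBlocks A (Matrix.of fun _ _ => 1) (Matrix.of fun _ _ => (lam : ℤ))
        (Matrix.of fun _ _ => (k : ℤ)) := ⟨_, rfl⟩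
  obtain ⟨F, hF⟩ : ∃ F : Matrix (Fin v ⊕ Unit) (Fin v ⊕ Unit) ℤ,
      F = Matrix.fromBlocks 1 0 0 (Matrix.of fun _ _ => -(lam : ℤ)) := ⟨_, rfl⟩
  have hkkZ : (k : ℤ) * k = n + lam * v := by exact_mod_cast hkk
  have hEF : E * F * E.transpose = (n : ℤ) • F := by
    rw [hE, hF, Matrix.fromBlocks_transpose, Matrix.fromBlocks_multiply,
      Matrix.fromBlocks_multiply, Matrix.fromBlocks_smul]
    refine Matrix.fromBlocks_inj.2 ⟨?_, ?_, ?_, ?_⟩
    · rw [Matrix.mul_one, Matrix.mul_zero, add_zero, hAA]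
      ext i j
      simp only [Matrix.add_apply, Matrix.smul_apply, Matrix.mul_apply, Matrix.of_apply,
        Matrix.transpose_apply, smul_eq_mul, Finset.univ_unique, Finset.sum_singleton,
        Matrix.zero_apply]
      ring_nf
      simp
    · ext i j
      simp [Matrix.mul_apply, ← Finset.sum_mul, hrow i]
      ring
    · ext i j
      simp [Matrix.mul_apply, ← Finset.mul_sum, hrow j]
      ring
    · ext i j
      simp [Matrix.mul_apply]
      linear_combination (-(lam : ℤ)) * hkkZ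
  have hFdet : F.det = -(lam : ℤ) := by
    rw [hF, Matrix.det_fromBlocks_zero₂₁]
    simp
  have hFs : F.transpose = F := by
    rw [hF, Matrix.fromBlocks_transpose]
    refine Matrix.fromBlocks_inj.2 ⟨?_, ?_, ?_, ?_⟩
    · simp
    · simp
    · simp
    · ext i j
      simp
  have hcard : Fintype.card (Fin v ⊕ Unit) = (m + 1) + (m + 1) := by
    simp [hm]; ring
  have hl0 : (lam : ℤ) ≠ 0 := by
    intro h0
    apply hpl
    have : lam = 0 := by exact_mod_cast h0
    rw [this]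
    exact dvd_zero p
  have hdetE : E.det ^ 2 = (n : ℤ) ^ (2 * (m + 1)) := by
    have h1 := congrArg Matrix.det hEF
    rw [Matrix.det_mul, Matrix.det_mul, Matrix.det_transpose, Matrix.det_smul, hFdet, hcard] at h1
    have h2 : (E.det ^ 2 - (n : ℤ) ^ (2 * (m + 1))) * (-(lam : ℤ)) = 0 := by
      have : 2 * (m + 1) = (m + 1) + (m + 1) := by ring
      rw [this]
      linear_combination h1
    rcases mul_eq_zero.1 h2 with h3 | h3
    · linarith
    · exfalso
      apply hl0
      linarith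
  -- reduction mod p
  obtain ⟨Eb, hEb⟩ : ∃ Eb : Matrix (Fin v ⊕ Unit) (Fin v ⊕ Unit) (ZMod p),
      Eb = E.map (Int.castRingHom (ZMod p)) := ⟨_, rfl⟩
  obtain ⟨Fb, hFb⟩ : ∃ Fb : Matrix (Fin v ⊕ Unit) (Fin v ⊕ Unit) (ZMod p),
      Fb = F.map (Int.castRingHom (ZMod p)) := ⟨_, rfl⟩
  have hpn : p ∣ n := by
    have : 0 < n.factorization p := by omega
    exact Nat.dvd_of_factorization_pos (by omega)
  have hnz : ((n : ℤ) : ZMod p) = 0 := by
    rw [Int.cast_natCast]
    exact (ZMod.natCast_eq_zero_iff n p).2 hpn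
  have hzero : Eb * Fb * Eb.transpose = 0 := by
    have h1 := congrArg (fun M => Matrix.map M (Int.castRingHom (ZMod p))) hEF
    simp only [Matrix.map_mul] at h1
    rw [hEb, hFb, ← Matrix.transpose_map, h1]
    ext i j
    show (Int.castRingHom (ZMod p)) ((n : ℤ) * F i j) = 0
    rw [map_mul, eq_intCast, hnz, zero_mul]
  obtain ⟨f, hf⟩ : ∃ f : (Fin v ⊕ Unit → ZMod p) →ₗ[ZMod p] (Fin v ⊕ Unit → ZMod p),
      f = Matrix.vecMulLinear Eb := ⟨_, rfl⟩
  have hfx : ∀ x, f x = x ᵥ* Eb := by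
    intro x
    rw [hf]
    rfl
  -- the kernel is small
  have hker : Module.finrank (ZMod p) (LinearMap.ker f) ≤ m + 1 := by
    obtain ⟨c, hc⟩ : ∃ c, c = Module.finrank (ZMod p) (LinearMap.ker f) := ⟨_, rfl⟩
    rw [← hc]
    have hb := (Module.finBasisOfFinrankEq (ZMod p) (LinearMap.ker f) hc.symm)
    have h1 := brc_rank p E c (fun j => (hb j : Fin v ⊕ Unit → ZMod p))
      (hb.linearIndependent.map' (LinearMap.ker f).subtype (Submodule.ker_subtype _))
      (fun j => by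
        have h2 := (hb j).2
        rw [LinearMap.mem_ker, hfx, hEb] at h2
        exact h2)
    have h2 : ((p : ℤ) ^ c) ^ 2 ∣ (n : ℤ) ^ (2 * (m + 1)) := by
      rw [← hdetE]
      exact pow_dvd_pow_of_dvd h1 2
    have h3 : p ^ (c * 2) ∣ n ^ (2 * (m + 1)) := by
      rw [pow_mul]
      exact_mod_cast h2
    have h4 := (hp.pow_dvd_iff_le_factorization (pow_ne_zero _ (by omega))).1 h3
    rw [Nat.factorization_pow] at h4
    simp only [Finsupp.smul_apply, hnp, smul_eq_mul, mul_one] at h4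
    omega
  have hrange : m + 1 ≤ Module.finrank (ZMod p) (LinearMap.range f) := by
    have h1 := LinearMap.finrank_range_add_finrank_ker f
    rw [Module.finrank_fintype_fun_eq_card, hcard] at h1
    omega
  obtain ⟨g, hg⟩ := exists_linearIndependent_of_le_finrank hrange
  obtain ⟨x, y, hx, hxy⟩ := brc_iso (m + 1) hcard Fb
    (by rw [hFb, ← Matrix.transpose_map, hFs])
    (fun j => (g j : Fin v ⊕ Unit → ZMod p))
    (hg.map' (LinearMap.range f).subtype (Submodule.ker_subtype _))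
    (fun i j => by
      obtain ⟨a, ha⟩ := (g i).2
      obtain ⟨b, hb⟩ := (g j).2
      show (g i : Fin v ⊕ Unit → ZMod p) ⬝ᵥ (Fb *ᵥ (g j : Fin v ⊕ Unit → ZMod p)) = 0
      rw [← ha, ← hb, hfx, hfx, ← Matrix.mulVec_transpose Eb b, Matrix.mulVec_mulVec,
        ← Matrix.dotProduct_mulVec, Matrix.mulVec_mulVec, ← Matrix.mul_assoc, hzero,
        Matrix.zero_mulVec, dotProduct_zero])
  have hFbdet : Fb.det = -(lam : ZMod p) := by
    rw [hFb, ← RingHom.mapMatrix_apply, ← RingHom.map_det, hFdet]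
    simp
  rw [hFbdet] at hxy
  have hvm : (v - 1) / 2 = m := by omega
  rw [hvm, ← jacobiSym.legendreSym.to_jacobiSym]
  have hne : (((-1 : ℤ) ^ m * (lam : ℤ) : ℤ) : ZMod p) ≠ 0 := by
    push_cast
    refine mul_ne_zero (pow_ne_zero _ (neg_ne_zero.2 one_ne_zero)) ?_
    intro h0
    exact hpl ((ZMod.natCast_eq_zero_iff lam p).1 h0)
  rw [legendreSym.eq_one_iff p hne]
  refine ⟨y / x, ?_⟩
  push_cast
  field_simp
  rw [hxy]
  ring

end Pool.Agent.Helper17.SO
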